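import Mathlib

set_option autoImplicit false

/-!
# The numbers `G j = 2 ^ j (j + 1)` and their powers
-/

namespace Pool.Agent.H563.SQ

open Finset

/-- `2 ^ j (j + 1)`, the size of the prime number with the index `2 ^ j` -/
noncomputable def G (j : ℕ) : ℝ := 2 ^ j * ((j : ℝ) + 1)

lemma G_ge (j : ℕ) : (j : ℝ) + 1 ≤ G j := by
  unfold G
  have h1 : (1 : ℝ) ≤ 2 ^ j := one_le_pow₀ (by norm_num)
  have h2 : (0 : ℝ) ≤ (j : ℝ) + 1 := by positivity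
  nlinarith

lemma G_one (j : ℕ) : 1 ≤ G j := by
  have := G_ge j
  have : (0 : ℝ) ≤ j := by positivity
  linarith

lemma G_pos (j : ℕ) : 0 < G j := lt_of_lt_of_le one_pos (G_one j)

lemma G_pow (i m : ℕ) : 2 ^ m * G i ≤ G (i + m) := by
  unfold G
  rw [pow_add]
  push_cast
  have h1 : (0 : ℝ) ≤ 2 ^ i * 2 ^ m := by positivity
  have h2 : (0 : ℝ) ≤ m := by positivity
  nlinarith [mul_nonneg h1 h2]

lemma G_up (i m : ℕ) : G (i + m) ≤ 2 ^ m * (m + 1) * G i := by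
  unfold G
  rw [pow_add]
  push_cast
  have h1 : (0 : ℝ) ≤ 2 ^ i * 2 ^ m := by positivity
  have h2 : (0 : ℝ) ≤ (m : ℝ) * i := by positivity
  nlinarith [mul_nonneg h1 h2]

lemma g_one (γ : ℝ) (hγ : 0 < γ) (j : ℕ) : 1 ≤ G j ^ γ := Real.one_le_rpow (G_one j) hγ.le

lemma g_pow (γ : ℝ) (hγ : 0 < γ) (i m : ℕ) : G i ^ γ ≤ ((1 / 2 : ℝ) ^ γ) ^ m * G (i + m) ^ γ := by
  rw [← Real.rpow_natCast, ← Real.rpow_mul (by norm_num), mul_comm γ, Real.rpow_mul (by norm_num),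
    Real.rpow_natCast, ← Real.mul_rpow (by positivity) (G_pos _).le]
  apply Real.rpow_le_rpow (G_pos _).le _ hγ.le
  have h1 := G_pow i m
  have h2 : (1 / 2 : ℝ) ^ m * (2 ^ m * G i) = G i := by
    rw [← mul_assoc, ← mul_pow]
    norm_num
  calc G i = (1 / 2 : ℝ) ^ m * (2 ^ m * G i) := h2.symm
    _ ≤ (1 / 2 : ℝ) ^ m * G (i + m) := by gcongr

lemma g_up (γ : ℝ) (hγ : 0 < γ) (hγ1 : γ ≤ 1) (i m : ℕ) :
    G (i + m) ^ γ ≤ 2 ^ m * (m + 1) * G i ^ γ := by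
  have h1 : (1 : ℝ) ≤ 2 ^ m * (m + 1) := by
    have h2 : (1 : ℝ) ≤ 2 ^ m := one_le_pow₀ (by norm_num)
    have h3 : (0 : ℝ) ≤ m := by positivity
    nlinarith
  calc G (i + m) ^ γ ≤ (2 ^ m * (m + 1) * G i) ^ γ :=
        Real.rpow_le_rpow (G_pos _).le (G_up i m) hγ.le
    _ = (2 ^ m * (m + 1)) ^ γ * G i ^ γ := Real.mul_rpow (by positivity) (G_pos _).le
    _ ≤ (2 ^ m * (m + 1)) * G i ^ γ := by
        apply mul_le_mul_of_nonneg_right _ (Real.rpow_nonneg (G_pos _).le _)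
        calc ((2 : ℝ) ^ m * (m + 1)) ^ γ ≤ (2 ^ m * (m + 1)) ^ (1 : ℝ) :=
              Real.rpow_le_rpow_of_exponent_le h1 hγ1
          _ = _ := Real.rpow_one _

/-- the sum of the powers over the scales below `J`, up to `h` of them -/
lemma g_sum (γ : ℝ) (hγ : 0 < γ) (h J : ℕ) (hJ : h ≤ J) :
    ∑ i ∈ range (J - h), G i ^ γ ≤ ((1 / 2 : ℝ) ^ γ) ^ (h + 1) / (1 - (1 / 2 : ℝ) ^ γ) * G J ^ γ := by
  have hq0 : (0 : ℝ) < (1 / 2 : ℝ) ^ γ := by positivity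
  have hq1 : ((1 / 2 : ℝ) ^ γ) < 1 := Real.rpow_lt_one (by norm_num) (by norm_num) hγ
  obtain ⟨q, hq⟩ : ∃ q : ℝ, q = (1 / 2 : ℝ) ^ γ := ⟨_, rfl⟩
  rw [← hq] at hq0 hq1 ⊢
  have h1 : ∀ i ∈ range (J - h), G i ^ γ ≤ q ^ (J - i) * G J ^ γ := by
    intro i hi
    rw [mem_range] at hi
    have := g_pow γ hγ i (J - i)
    rw [← hq, show i + (J - i) = J by omega] at this
    exact this
  refine (sum_le_sum h1).trans ?_
  rw [← sum_mul]
  apply mul_le_mul_of_nonneg_right _ (Real.rpow_nonneg (G_pos _).le _)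
  rw [← sum_range_reflect]
  have h2 : ∀ i ∈ range (J - h), q ^ (J - (J - h - 1 - i)) = q ^ (h + 1) * q ^ i := by
    intro i hi
    rw [mem_range] at hi
    rw [← pow_add]
    congr 1
    omega
  rw [sum_congr rfl h2, ← mul_sum, div_eq_mul_inv]
  apply mul_le_mul_of_nonneg_left _ (by positivity)
  rw [geom_sum_eq hq1.ne, ← neg_div_neg_eq, neg_sub, neg_sub, div_eq_mul_inv]
  have h3 : (0 : ℝ) < 1 - q := by linarith
  calc (1 - q ^ (J - h)) * (1 - q)⁻¹ ≤ 1 * (1 - q)⁻¹ := by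
        apply mul_le_mul_of_nonneg_right _ (by positivity)
        have : (0 : ℝ) ≤ q ^ (J - h) := by positivity
        linarith
    _ = _ := one_mul _

/-- the numbers of blocks -/
lemma blocks (γ C₁ : ℝ) (hγ : 0 < γ) (hγ1 : γ < 1) (hC : 1 ≤ C₁) :
    ∃ a : ℕ → ℕ, (∀ i, a i ≤ i) ∧ (∀ i, (2 ^ a i : ℝ) ≤ 4 * (C₁ * G i ^ γ)) ∧
      ∃ i₀ : ℕ, ∀ i, i₀ ≤ i → C₁ * G i ^ γ ≤ (2 ^ a i : ℝ) := by
  have hF1 : ∀ i, 1 ≤ C₁ * G i ^ γ := by
    intro i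
    have := g_one γ hγ i
    nlinarith
  refine ⟨fun i => min i (Nat.clog 2 ⌈C₁ * G i ^ γ⌉₊), fun i => min_le_left _ _, ?_, ?_⟩
  · intro i
    have h1 : ((2 ^ min i (Nat.clog 2 ⌈C₁ * G i ^ γ⌉₊) : ℕ) : ℝ) ≤ 2 * (⌈C₁ * G i ^ γ⌉₊ : ℝ) := by
      have h2 : 2 ^ min i (Nat.clog 2 ⌈C₁ * G i ^ γ⌉₊) ≤ 2 ^ (Nat.clog 2 ⌈C₁ * G i ^ γ⌉₊) :=
        Nat.pow_le_pow_right (by norm_num) (min_le_right _ _)
      have h3 : 2 ^ (Nat.clog 2 ⌈C₁ * G i ^ γ⌉₊) ≤ 2 * ⌈C₁ * G i ^ γ⌉₊ := by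
        have hn1 : 1 ≤ ⌈C₁ * G i ^ γ⌉₊ := by
          have : (0 : ℝ) < C₁ * G i ^ γ := lt_of_lt_of_le one_pos (hF1 i)
          exact Nat.one_le_iff_ne_zero.2 (Nat.ceil_pos.2 this).ne'
        rcases eq_or_lt_of_le hn1 with h4 | h4
        · rw [← h4]
          simp
        · have h5 := Nat.pow_pred_clog_lt_self (by norm_num : 1 < 2) h4
          have h6 : 0 < Nat.clog 2 ⌈C₁ * G i ^ γ⌉₊ := Nat.clog_pos (by norm_num) h4
          obtain ⟨c, hc⟩ : ∃ c, Nat.clog 2 ⌈C₁ * G i ^ γ⌉₊ = c + 1 := ⟨_, (Nat.succ_pred_eq_of_pos h6).symm⟩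
          rw [hc] at h5 ⊢
          simp only [Nat.pred_succ] at h5
          rw [pow_succ]
          omega
      exact_mod_cast h2.trans h3
    have h7 := (Nat.ceil_lt_add_one (le_trans zero_le_one (hF1 i))).le
    have h8 := hF1 i
    push_cast at h1
    linarith
  · have hρ : |(2 : ℝ) ^ (γ - 1)| < 1 := by
      rw [abs_of_pos (by positivity)]
      exact Real.rpow_lt_one_of_one_lt_of_neg (by norm_num) (by linarith)
    have ht := tendsto_self_mul_const_pow_of_abs_lt_one hρ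
    have ht2 := tendsto_pow_atTop_nhds_zero_of_abs_lt_one hρ
    have ht3 := ht.add ht2
    rw [add_zero] at ht3
    have hev := ht3.eventually_lt_const (show (0 : ℝ) < 1 / (2 * C₁) by positivity)
    obtain ⟨i₀, hi₀⟩ := Filter.eventually_atTop.1 hev
    refine ⟨i₀, ?_⟩
    intro i hi
    have h1 := hi₀ i hi
    have hC0 : (0 : ℝ) < C₁ := by linarith
    rw [lt_div_iff₀ (by positivity)] at h1
    have h2 : G i ^ γ ≤ ((i : ℝ) + 1) * ((2 : ℝ) ^ (γ - 1)) ^ i * 2 ^ i := by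
      unfold G
      rw [Real.mul_rpow (by positivity) (by positivity)]
      have h3 : ((2 : ℝ) ^ i) ^ γ = ((2 : ℝ) ^ (γ - 1)) ^ i * 2 ^ i := by
        rw [← Real.rpow_natCast, ← Real.rpow_natCast, ← Real.rpow_mul (by norm_num),
          ← Real.rpow_mul (by norm_num), ← Real.rpow_add (by norm_num)]
        congr 1
        ring
      rw [h3]
      have h4 : ((i : ℝ) + 1) ^ γ ≤ (i : ℝ) + 1 := by
        calc ((i : ℝ) + 1) ^ γ ≤ ((i : ℝ) + 1) ^ (1 : ℝ) := by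
              apply Real.rpow_le_rpow_of_exponent_le _ hγ1.le
              have : (0 : ℝ) ≤ i := by positivity
              linarith
          _ = _ := Real.rpow_one _
      have h5 : (0 : ℝ) ≤ ((2 : ℝ) ^ (γ - 1)) ^ i * 2 ^ i := by positivity
      nlinarith [mul_le_mul_of_nonneg_left h4 h5]
    have h3 : 2 * (C₁ * G i ^ γ) ≤ 2 ^ i := by
      have h4 : (0 : ℝ) < 2 ^ i := by positivity
      have h5 := mul_le_mul_of_nonneg_left h2 (show (0 : ℝ) ≤ 2 * C₁ by positivity)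
      have h6 : 2 * C₁ * (((i : ℝ) + 1) * ((2 : ℝ) ^ (γ - 1)) ^ i * 2 ^ i) ≤ 1 * 2 ^ i := by
        have h7 : 2 * C₁ * (((i : ℝ) + 1) * ((2 : ℝ) ^ (γ - 1)) ^ i * 2 ^ i) =
            ((i * ((2 : ℝ) ^ (γ - 1)) ^ i + ((2 : ℝ) ^ (γ - 1)) ^ i) * (2 * C₁)) * 2 ^ i := by ring
        rw [h7]
        exact mul_le_mul_of_nonneg_right h1.le h4.le
      linarith
    have h4 : ⌈C₁ * G i ^ γ⌉₊ ≤ 2 ^ i := by
      rw [Nat.ceil_le]
      push_cast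
      have := hF1 i
      linarith
    have h5 : Nat.clog 2 ⌈C₁ * G i ^ γ⌉₊ ≤ i := (Nat.clog_le_iff_le_pow (by norm_num)).2 h4
    simp only [min_eq_right h5]
    calc C₁ * G i ^ γ ≤ (⌈C₁ * G i ^ γ⌉₊ : ℝ) := Nat.le_ceil _
      _ ≤ ((2 ^ Nat.clog 2 ⌈C₁ * G i ^ γ⌉₊ : ℕ) : ℝ) := by
          exact_mod_cast Nat.le_pow_clog (by norm_num) _
      _ = _ := by push_cast; ring

end Pool.Agent.H563.SQ
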