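import Mathlib
import Pool.Agent.H563.SQ.Grow

set_option autoImplicit false

/-!
# The number of primes up to `y` in terms of `G`
-/

namespace Pool.Agent.H563.SQ

open Real

lemma log_le_two_sqrt (y : ℝ) (hy : 0 < y) : Real.log y ≤ 2 * √y := by
  have h1 : Real.log (√y) ≤ √y - 1 := Real.log_le_sub_one_of_pos (Real.sqrt_pos.2 hy)
  rw [Real.log_sqrt hy.le] at h1
  linarith

lemma pi_le_self (y : ℕ) : Nat.primeCounting y ≤ y := by
  rw [Nat.primeCounting, Nat.primeCounting', Nat.count_eq_card_filter_range]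
  have h1 : (Finset.range (y + 1)).filter Nat.Prime ⊆ Finset.Icc 1 y := by
    intro p hp
    rw [Finset.mem_filter, Finset.mem_range] at hp
    rw [Finset.mem_Icc]
    have := hp.2.one_lt
    omega
  have h2 := Finset.card_le_card h1
  rw [Nat.card_Icc] at h2
  refine (le_of_eq ?_).trans (h2.trans (by omega))
  congr

lemma chebA (y J : ℕ) (hy : 2 ≤ y) (hJ : 2 ^ J ≤ Nat.primeCounting y) : G J ≤ 15 * y := by
  have hyr : (2 : ℝ) ≤ y := by exact_mod_cast hy
  have h1 := Chebyshev.pi_le_log4_mul_div (x := (y : ℝ)) (by linarith)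
  rw [Nat.floor_natCast] at h1
  have hlog : Real.log 2 ≤ Real.log y := Real.log_le_log (by norm_num) hyr
  have hl2 := Real.log_two_gt_d9
  have hlpos : 0 < Real.log y := by linarith
  rw [Real.log_sqrt (by positivity)] at h1
  have h2 : (Nat.primeCounting y : ℝ) * Real.log y ≤ 2 * Real.log 4 * y + √y * Real.log y := by
    calc (Nat.primeCounting y : ℝ) * Real.log y ≤ (Real.log 4 * y / (Real.log y / 2) + √y) * Real.log y :=
          mul_le_mul_of_nonneg_right h1 hlpos.le
      _ = 2 * Real.log 4 * y + √y * Real.log y := by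
          field_simp
  have h3 : √(y : ℝ) * Real.log y ≤ 2 * y := by
    have h4 := log_le_two_sqrt (y : ℝ) (by positivity)
    calc √(y : ℝ) * Real.log y ≤ √(y : ℝ) * (2 * √y) :=
          mul_le_mul_of_nonneg_left h4 (Real.sqrt_nonneg _)
      _ = 2 * (√(y : ℝ) * √y) := by ring
      _ = 2 * y := by rw [Real.mul_self_sqrt (by positivity)]
  have h5 : Real.log 4 = 2 * Real.log 2 := by
    rw [show (4 : ℝ) = 2 ^ 2 by norm_num, Real.log_pow]
    norm_num
  have h6 : (J : ℝ) * Real.log 2 ≤ Real.log y := by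
    rw [← Real.log_pow]
    apply Real.log_le_log (by positivity)
    have h7 : 2 ^ J ≤ y := hJ.trans (pi_le_self y)
    exact_mod_cast h7
  have h7 : ((J : ℝ) + 1) * Real.log 2 ≤ 2 * Real.log y := by linarith
  have h8 : G J * Real.log 2 ≤ 2 * ((Nat.primeCounting y : ℝ) * Real.log y) := by
    unfold G
    have h9 : ((2 : ℝ) ^ J) ≤ Nat.primeCounting y := by exact_mod_cast hJ
    calc (2 : ℝ) ^ J * ((J : ℝ) + 1) * Real.log 2 = 2 ^ J * (((J : ℝ) + 1) * Real.log 2) := by ring
      _ ≤ (Nat.primeCounting y : ℝ) * (2 * Real.log y) :=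
          mul_le_mul h9 h7 (by positivity) (by positivity)
      _ = _ := by ring
  have h9 : G J * Real.log 2 ≤ (8 * Real.log 2 + 4) * y := by
    rw [h5] at h2
    linarith
  have hl2' := Real.log_two_lt_d9
  have h10 : (8 * Real.log 2 + 4) * y ≤ 15 * y * Real.log 2 := by nlinarith
  have h11 := h9.trans h10
  have h12 : (0 : ℝ) < Real.log 2 := by linarith
  exact le_of_mul_le_mul_right h11 h12

lemma chebB (y J : ℕ) (hJ : Nat.primeCounting y ≤ 2 ^ (J + 1)) : (y : ℝ) ≤ 45 * G J := by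
  have hG := G_one J
  by_cases hy : y < 8
  · have : (y : ℝ) ≤ 8 := by exact_mod_cast hy.le
    linarith
  push Not at hy
  have hyr : (8 : ℝ) ≤ y := by exact_mod_cast hy
  have hl2 := Real.log_two_gt_d9
  have hl2' := Real.log_two_lt_d9
  have h1 := Chebyshev.pi_ge y
  have hlpos : 0 < Real.log y := Real.log_pos (by linarith)
  rw [div_le_iff₀ hlpos] at h1
  have h2 : Real.log ((y : ℝ) + 1) ≤ 3 * Real.log 2 + (((y : ℝ) + 1) / 8 - 1) := by
    have h3 : Real.log ((y : ℝ) + 1) = Real.log 8 + Real.log (((y : ℝ) + 1) / 8) := by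
      rw [← Real.log_mul (by norm_num) (by positivity)]
      congr 1
      field_simp
    have h4 : Real.log 8 = 3 * Real.log 2 := by
      rw [show (8 : ℝ) = 2 ^ 3 by norm_num, Real.log_pow]
      norm_num
    have h5 := Real.log_le_sub_one_of_pos (show (0 : ℝ) < ((y : ℝ) + 1) / 8 by positivity)
    rw [h3, h4]
    linarith
  have h3 : (y : ℝ) / 4 ≤ (y : ℝ) * Real.log 2 - Real.log ((y : ℝ) + 1) := by nlinarith
  have h4 : (Nat.primeCounting y : ℝ) ≤ 2 ^ (J + 1) := by exact_mod_cast hJ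
  have h5 : (y : ℝ) / 4 ≤ 2 ^ (J + 1) * Real.log y :=
    (h3.trans h1).trans (mul_le_mul_of_nonneg_right h4 hlpos.le)
  have hs : 0 < √(y : ℝ) := Real.sqrt_pos.2 (by linarith)
  have hss : √(y : ℝ) * √(y : ℝ) = y := Real.mul_self_sqrt (by linarith)
  have h6 : √(y : ℝ) ≤ 2 ^ (J + 4) := by
    have h7 := log_le_two_sqrt (y : ℝ) (by linarith)
    have h8 : (y : ℝ) / 4 ≤ 2 ^ (J + 1) * (2 * √y) :=
      h5.trans (mul_le_mul_of_nonneg_left h7 (by positivity))
    have h9 : √(y : ℝ) * √(y : ℝ) ≤ (2 ^ (J + 4)) * √(y : ℝ) := by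
      rw [hss]
      have e1 : (2 : ℝ) ^ (J + 4) = 8 * 2 ^ (J + 1) := by ring
      rw [e1]
      linarith
    exact le_of_mul_le_mul_right h9 hs
  have h7 : Real.log y ≤ 2 * ((J + 4) * Real.log 2) := by
    have h8 := Real.log_le_log hs h6
    rw [Real.log_sqrt (by linarith), Real.log_pow] at h8
    push_cast at h8
    linarith
  have h8 : (y : ℝ) ≤ 4 * (2 ^ (J + 1) * (2 * ((J + 4) * Real.log 2))) := by
    have := mul_le_mul_of_nonneg_left h7 (show (0 : ℝ) ≤ 2 ^ (J + 1) by positivity)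
    linarith
  have h9 : 4 * ((2 : ℝ) ^ (J + 1) * (2 * ((J + 4) * Real.log 2))) = 2 ^ J * (16 * (J + 4) * Real.log 2) := by
    ring
  have h10 : 16 * ((J : ℝ) + 4) * Real.log 2 ≤ 45 * (J + 1) := by
    have : (0 : ℝ) ≤ J := by positivity
    nlinarith
  rw [h9] at h8
  unfold G
  have h11 := mul_le_mul_of_nonneg_left h10 (show (0 : ℝ) ≤ 2 ^ J by positivity)
  linarith

end Pool.Agent.H563.SQ
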