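import Mathlib

set_option autoImplicit false

/-!
# A set of natural numbers with one element in each of `K i` blocks of `[2 ^ i, 2 ^ (i + 1))`
-/

namespace Pool.Agent.H563.SQ

open Finset

/-- the chosen element of the block `t` at the scale `i` -/
def pt (L : ℕ → ℕ) (r : ℕ → ℕ → ℕ) (i t : ℕ) : ℕ := 2 ^ i + (t * L i + r i t)

/-- the set of the chosen elements -/
def WW (K L : ℕ → ℕ) (r : ℕ → ℕ → ℕ) : Set ℕ := {v | ∃ i t, t < K i ∧ v = pt L r i t}

lemma pt_low (L : ℕ → ℕ) (r : ℕ → ℕ → ℕ) (i t : ℕ) : 2 ^ i ≤ pt L r i t := by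
  unfold pt
  omega

lemma pt_mono (L : ℕ → ℕ) (r : ℕ → ℕ → ℕ) (hr : ∀ i t, r i t < L i) (i : ℕ) {t t' : ℕ} (h : t < t') :
    pt L r i t < pt L r i t' := by
  unfold pt
  have h1 : (t + 1) * L i ≤ t' * L i := Nat.mul_le_mul_right _ h
  rw [Nat.succ_mul] at h1
  have := hr i t
  omega

lemma pt_up (K L : ℕ → ℕ) (hKL : ∀ i, K i * L i = 2 ^ i) (r : ℕ → ℕ → ℕ) (hr : ∀ i t, r i t < L i)
    (i t : ℕ) (ht : t < K i) : pt L r i t < 2 ^ (i + 1) := by
  unfold pt
  have h1 : (t + 1) * L i ≤ K i * L i := Nat.mul_le_mul_right _ ht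
  rw [Nat.succ_mul, hKL] at h1
  have := hr i t
  rw [pow_succ]
  omega

/-- the sum over the chosen elements in a part of one scale -/
lemma blk (K L : ℕ → ℕ) (hKL : ∀ i, K i * L i = 2 ^ i) (r : ℕ → ℕ → ℕ) (hr : ∀ i t, r i t < L i)
    (J m : ℕ) (hm1 : m ≤ 2 ^ (J + 1)) [DecidablePred (· ∈ WW K L r)] :
    ∃ t₁ ≤ K J, (m = 2 ^ (J + 1) → t₁ = K J) ∧
      ∀ f : ℕ → ℝ, ∑ v ∈ (Ico (2 ^ J) m).filter (· ∈ WW K L r), f v = ∑ t ∈ range t₁, f (pt L r J t) := by
  classical
  have hex : ∃ t, K J ≤ t ∨ m ≤ pt L r J t := ⟨K J, Or.inl le_rfl⟩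
  set t₁ := Nat.find hex with ht₁
  have hle : t₁ ≤ K J := Nat.find_min' hex (Or.inl le_rfl)
  have hiff : ∀ t, t < t₁ ↔ t < K J ∧ pt L r J t < m := by
    intro t
    constructor
    · intro h
      have h1 := Nat.find_min hex h
      push Not at h1
      exact h1
    · rintro ⟨h1, h2⟩
      by_contra hcon
      push Not at hcon
      rcases Nat.find_spec hex with h3 | h3
      · omega
      · rcases lt_or_eq_of_le hcon with h4 | h4
        · have := pt_mono L r hr J h4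
          rw [← ht₁] at h3
          omega
        · rw [← ht₁, h4] at h3
          omega
  refine ⟨t₁, hle, ?_, ?_⟩
  · intro hm
    by_contra hcon
    have h1 : t₁ < K J := by omega
    have h2 := (hiff t₁).2 ⟨h1, by rw [hm]; exact pt_up K L hKL r hr J t₁ h1⟩
    omega
  · intro f
    have himg : (Ico (2 ^ J) m).filter (· ∈ WW K L r) = (range t₁).image (pt L r J) := by
      ext v
      simp only [mem_filter, mem_Ico, mem_image, mem_range]
      constructor
      · rintro ⟨⟨h1, h2⟩, i, t, ht, rfl⟩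
        have h3 : i = J := by
          have a1 := pt_low L r i t
          have a2 := pt_up K L hKL r hr i t ht
          have a3 : 2 ^ i < 2 ^ (J + 1) := by omega
          have a4 : 2 ^ J < 2 ^ (i + 1) := by omega
          have a5 := (Nat.pow_lt_pow_iff_right (by norm_num : 1 < 2)).1 a3
          have a6 := (Nat.pow_lt_pow_iff_right (by norm_num : 1 < 2)).1 a4
          omega
        subst h3
        exact ⟨t, (hiff t).2 ⟨ht, h2⟩, rfl⟩
      · rintro ⟨t, ht, rfl⟩
        obtain ⟨h1, h2⟩ := (hiff t).1 ht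
        exact ⟨⟨pt_low L r J t, h2⟩, J, t, h1, rfl⟩
    rw [himg, sum_image]
    intro a _ b _ hab
    rcases lt_trichotomy a b with h | h | h
    · have := pt_mono L r hr J h
      omega
    · exact h
    · have := pt_mono L r hr J h
      omega

/-- the sum over the chosen elements below a power of two -/
lemma full (K L : ℕ → ℕ) (hKL : ∀ i, K i * L i = 2 ^ i) (r : ℕ → ℕ → ℕ) (hr : ∀ i t, r i t < L i)
    [DecidablePred (· ∈ WW K L r)] (f : ℕ → ℝ) :
    ∀ J : ℕ, ∑ v ∈ (range (2 ^ J)).filter (· ∈ WW K L r), f v =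
      ∑ i ∈ range J, ∑ t ∈ range (K i), f (pt L r i t) := by
  intro J
  induction J with
  | zero =>
    rw [range_zero, sum_empty]
    apply sum_eq_zero
    intro v hv
    simp only [pow_zero, mem_filter, mem_range] at hv
    obtain ⟨h1, i, t, _, h2⟩ := hv
    have h3 := pt_low L r i t
    have h4 : 0 < 2 ^ i := by positivity
    omega
  | succ J ih =>
    have h0 : 2 ^ J ≤ 2 ^ (J + 1) := Nat.pow_le_pow_right (by norm_num) (by omega)
    obtain ⟨t₁, _, h1, h2⟩ := blk K L hKL r hr J (2 ^ (J + 1)) le_rfl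
    rw [sum_range_succ, ← ih, ← h1 rfl, ← h2 f, sum_filter, sum_filter, sum_filter]
    simp only [range_eq_Ico]
    rw [sum_Ico_consecutive _ (Nat.zero_le _) h0]

/-- the sum over the chosen elements below `m` -/
lemma upto (K L : ℕ → ℕ) (hKL : ∀ i, K i * L i = 2 ^ i) (r : ℕ → ℕ → ℕ) (hr : ∀ i t, r i t < L i)
    [DecidablePred (· ∈ WW K L r)] (J m : ℕ) (hm : 2 ^ J ≤ m) (hm1 : m ≤ 2 ^ (J + 1)) :
    ∃ t₁ ≤ K J, ∀ f : ℕ → ℝ, ∑ v ∈ (range m).filter (· ∈ WW K L r), f v =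
      ∑ i ∈ range J, ∑ t ∈ range (K i), f (pt L r i t) + ∑ t ∈ range t₁, f (pt L r J t) := by
  obtain ⟨t₁, h0, _, h2⟩ := blk K L hKL r hr J m hm1
  refine ⟨t₁, h0, ?_⟩
  intro f
  rw [← h2 f, ← full K L hKL r hr f J, sum_filter, sum_filter, sum_filter]
  simp only [range_eq_Ico]
  rw [sum_Ico_consecutive _ (Nat.zero_le _) hm]

end Pool.Agent.H563.SQ
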