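import Pool.Agent.H563.SQ.Scale
import Pool.Agent.H563.SQ.Pts
import Pool.Agent.H563.SQ.Grow

set_option autoImplicit false

/-!
# One thin set for all scales
-/

namespace Pool.Agent.H563.SQ

open Finset

lemma small_exp (c : ℝ) (hc : 0 < c) : ∃ x₀ : ℝ, ∀ x : ℝ, x₀ ≤ x → 6 * (x + 1) * Real.exp (-(c * x)) < 1 := by
  have h1 : Filter.Tendsto (fun x : ℝ => x ^ 1 * Real.exp (-x)) Filter.atTop (nhds 0) :=
    Real.tendsto_pow_mul_exp_neg_atTop_nhds_zero 1
  have h2 : Filter.Tendsto (fun x : ℝ => c * x) Filter.atTop Filter.atTop :=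
    Filter.tendsto_id.const_mul_atTop hc
  have h3 := h1.comp h2
  have h4 : Filter.Tendsto (fun x : ℝ => Real.exp (-(c * x))) Filter.atTop (nhds 0) :=
    Real.tendsto_exp_neg_atTop_nhds_zero.comp h2
  have h5 := ((h3.const_mul (6 / c)).add (h4.const_mul 6))
  simp only [mul_zero, add_zero, Function.comp_def, pow_one] at h5
  obtain ⟨x₀, hx₀⟩ := Filter.eventually_atTop.1 (h5.eventually_lt_const (show (0 : ℝ) < 1 by norm_num))
  refine ⟨x₀, fun x hx => ?_⟩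
  have h6 := hx₀ x hx
  have h7 : 6 * (x + 1) * Real.exp (-(c * x)) =
      6 / c * (c * x * Real.exp (-(c * x))) + 6 * Real.exp (-(c * x)) := by
    field_simp
  rw [h7]
  exact h6

/-- The choice at one scale. -/
lemma one {ι : Type*} (l : ι → ℝ)
    (hfin : ∀ B : ℝ, 0 ≤ B → ∃ I : Finset ι, (∀ d, l d ≤ B → d ∈ I) ∧ (I.card : ℝ) ≤ 3 * Real.exp B)
    (e : ι → ℕ → ℝ) (he : ∀ d v, |e d v| ≤ 1) (η : ℝ) (hη : 0 < η) (hη1 : η ≤ 1) (K L i : ℕ) (hL : 0 < L)
    (hKL : K * L = 2 ^ i) (hK : 6 * ((K : ℝ) + 1) * Real.exp (-(η ^ 2 / 16 * K)) < 1) :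
    ∃ r : ℕ → ℕ, (∀ t, r t < L) ∧ ∀ d, l d ≤ η ^ 2 / 16 * K →
      (∀ t ≤ 2 ^ i, |∑ v ∈ range t, e d (2 ^ i + v)| ≤ η / 4 * 2 ^ i) →
      ∀ t ≤ K, |∑ s ∈ range t, e d (2 ^ i + (s * L + r s))| ≤ η * K := by
  classical
  obtain ⟨I, hI1, hI2⟩ := hfin (η ^ 2 / 16 * K) (by positivity)
  have hKLr : (K : ℝ) * L = 2 ^ i := by exact_mod_cast hKL
  obtain ⟨r, hr1, hr2⟩ := scale (I.filter (fun d => ∀ t ≤ 2 ^ i, |∑ v ∈ range t, e d (2 ^ i + v)| ≤ η / 4 * 2 ^ i))
    (fun d v => e d (2 ^ i + v)) (fun d v => he d _) K L hL η hη hη1 (by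
      intro d hd t ht
      rw [mem_filter] at hd
      rw [hKLr]
      apply hd.2
      rw [← hKL]
      exact Nat.mul_le_mul_right _ ht) (by
      refine lt_of_le_of_lt ?_ hK
      have h1 : ((I.filter (fun d => ∀ t ≤ 2 ^ i, |∑ v ∈ range t, e d (2 ^ i + v)| ≤ η / 4 * 2 ^ i)).card : ℝ) ≤
          3 * Real.exp (η ^ 2 / 16 * K) := by
        refine le_trans ?_ hI2
        exact_mod_cast card_filter_le _ _
      calc 2 * (((I.filter (fun d => ∀ t ≤ 2 ^ i, |∑ v ∈ range t, e d (2 ^ i + v)| ≤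
              η / 4 * 2 ^ i)).card : ℝ) * (K + 1)) * Real.exp (-(η ^ 2 / 8 * K)) ≤
            2 * ((3 * Real.exp (η ^ 2 / 16 * K)) * (K + 1)) * Real.exp (-(η ^ 2 / 8 * K)) := by gcongr
        _ = 6 * (K + 1) * (Real.exp (η ^ 2 / 16 * K) * Real.exp (-(η ^ 2 / 8 * K))) := by ring
        _ = 6 * (K + 1) * Real.exp (-(η ^ 2 / 16 * K)) := by
            rw [← Real.exp_add]
            congr 2
            ring)
  refine ⟨r, hr1, ?_⟩
  intro d hd hd2 t ht
  exact hr2 d (mem_filter.2 ⟨hI1 d hd, hd2⟩) t ht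

/-- One thin set on which the means of many functions are small at all scales. -/
theorem sample {ι : Type*} (l : ι → ℝ)
    (hfin : ∀ B : ℝ, 0 ≤ B → ∃ I : Finset ι, (∀ d, l d ≤ B → d ∈ I) ∧ (I.card : ℝ) ≤ 3 * Real.exp B)
    (e : ι → ℕ → ℝ) (he : ∀ d v, |e d v| ≤ 1) (γ η : ℝ) (hγ : 0 < γ) (hγ1 : γ < 1) (hη : 0 < η)
    (hη1 : η ≤ 1) :
    ∃ h : ℕ, ∀ H : ℝ, 0 < H → ∃ W : Set ℕ, ∃ C : ℝ, ∃ J₀ : ℕ, 0 < C ∧ h ≤ J₀ ∧
      (∀ J m : ℕ, m ≤ 2 ^ (J + 1) → ((W ∩ Set.Iio m).ncard : ℝ) ≤ C * G J ^ γ) ∧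
      (∀ J m : ℕ, J₀ ≤ J → 2 ^ J ≤ m → H * G J ^ γ ≤ ((W ∩ Set.Iio m).ncard : ℝ)) ∧
      ∀ d J, J₀ ≤ J → l d ≤ H * G J ^ γ →
        (∀ i, J ≤ i + h → i ≤ J → ∀ t ≤ 2 ^ i, |∑ v ∈ range t, e d (2 ^ i + v)| ≤ η / 4 * 2 ^ i) →
        ∀ m, 2 ^ J ≤ m → m ≤ 2 ^ (J + 1) →
          ∀ T : Finset ℕ, (∀ v, v ∈ T ↔ v ∈ W ∧ v < m) →
            |∑ v ∈ T, e d v| ≤ 20 * η * T.card := by
  classical
  obtain ⟨q, hq⟩ : ∃ q : ℝ, q = (1 / 2 : ℝ) ^ γ := ⟨_, rfl⟩
  have hq0 : 0 < q := by rw [hq]; positivity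
  have hq1 : q < 1 := by rw [hq]; exact Real.rpow_lt_one (by norm_num) (by norm_num) hγ
  obtain ⟨h₀, hh⟩ := exists_pow_lt_of_lt_one (show (0 : ℝ) < η * (1 - q) / 4 by
    apply div_pos _ (by norm_num)
    apply mul_pos hη
    linarith) hq1
  obtain ⟨h, hh0⟩ : ∃ h : ℕ, h = h₀ + 1 := ⟨_, rfl⟩
  refine ⟨h, fun H hH => ?_⟩
  obtain ⟨C₁, hC₁⟩ : ∃ C₁ : ℝ, C₁ = max 1 (H * (2 ^ h * (h + 1)) / (η ^ 2 / 16)) := ⟨_, rfl⟩
  have hC1 : 1 ≤ C₁ := by rw [hC₁]; exact le_max_left _ _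
  have hC2 : H * (2 ^ h * (h + 1)) / (η ^ 2 / 16) ≤ C₁ := by rw [hC₁]; exact le_max_right _ _
  rw [div_le_iff₀ (by positivity)] at hC2
  obtain ⟨a, ha1, ha2, i₀, ha3⟩ := blocks γ C₁ hγ hγ1 hC1
  obtain ⟨x₀, hx₀⟩ := small_exp (η ^ 2 / 16) (by positivity)
  -- the numbers of blocks tend to infinity
  have htend : Filter.Tendsto (fun i : ℕ => G i ^ γ) Filter.atTop Filter.atTop := by
    apply (tendsto_rpow_atTop hγ).comp
    apply Filter.tendsto_atTop_mono (f := fun i : ℕ => (i : ℝ))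
    · intro i
      have := G_ge i
      linarith
    · exact tendsto_natCast_atTop_atTop
  obtain ⟨i₁, hi₁⟩ := Filter.eventually_atTop.1 (htend.eventually_ge_atTop x₀)
  have hKL : ∀ i, 2 ^ a i * 2 ^ (i - a i) = 2 ^ i := by
    intro i
    rw [← pow_add]
    congr 1
    have := ha1 i
    omega
  have hex : ∀ i, ∃ r : ℕ → ℕ, (∀ t, r t < 2 ^ (i - a i)) ∧ (i₀ + i₁ ≤ i → ∀ d, l d ≤ η ^ 2 / 16 * (2 ^ a i : ℕ) →
      (∀ t ≤ 2 ^ i, |∑ v ∈ range t, e d (2 ^ i + v)| ≤ η / 4 * 2 ^ i) →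
      ∀ t ≤ 2 ^ a i, |∑ s ∈ range t, e d (2 ^ i + (s * 2 ^ (i - a i) + r s))| ≤ η * (2 ^ a i : ℕ)) := by
    intro i
    by_cases hi : i₀ + i₁ ≤ i
    · obtain ⟨r, h1, h2⟩ := one l hfin e he η hη hη1 (2 ^ a i) (2 ^ (i - a i)) i (by positivity) (hKL i) (by
        apply hx₀
        have h3 := ha3 i (by omega)
        have h4 := hi₁ i (by omega)
        have h5 := g_one γ hγ i
        push_cast
        nlinarith)
      exact ⟨r, h1, fun _ => h2⟩
    · exact ⟨fun _ => 0, fun t => by positivity, fun h => absurd h hi⟩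
  choose r hr1 hr2 using hex
  set K : ℕ → ℕ := fun i => 2 ^ a i with hK
  set L : ℕ → ℕ := fun i => 2 ^ (i - a i) with hL
  have hKr : ∀ i, (K i : ℝ) = (2 : ℝ) ^ a i := by intro i; rw [hK]; push_cast; ring
  have hKup : ∀ i, (K i : ℝ) ≤ 4 * (C₁ * G i ^ γ) := by intro i; rw [hKr]; exact ha2 i
  have hKlow : ∀ i, i₀ ≤ i → C₁ * G i ^ γ ≤ (K i : ℝ) := by intro i hi; rw [hKr]; exact ha3 i hi
  refine ⟨WW K L r, 4 * C₁ * (1 + q / (1 - q)), i₀ + i₁ + h + 1, ?_, by omega, ?_, ?_, ?_⟩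
  · have : 0 < 1 - q := by linarith
    positivity
  · intro J m hm
    have h1 : ((WW K L r ∩ Set.Iio m).ncard : ℝ) ≤ ∑ v ∈ (range (2 ^ (J + 1))).filter (· ∈ WW K L r), (1 : ℝ) := by
      rw [sum_const, nsmul_eq_mul, mul_one]
      have h2 : (WW K L r ∩ Set.Iio m) ⊆ (((range (2 ^ (J + 1))).filter (· ∈ WW K L r) : Finset ℕ) : Set ℕ) := by
        rintro v ⟨h3, h4⟩
        rw [Set.mem_Iio] at h4
        simp only [coe_filter, mem_range, Set.mem_ofPred_eq]
        exact ⟨by omega, h3⟩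
      have h5 := Set.ncard_le_ncard h2 (Finset.finite_toSet _)
      rw [Set.ncard_coe_finset] at h5
      exact_mod_cast h5
    rw [full K L hKL r hr1 (fun _ => 1) (J + 1)] at h1
    refine h1.trans ?_
    have h3 : ∑ i ∈ range (J + 1), ∑ t ∈ range (K i), (1 : ℝ) ≤ ∑ i ∈ range (J + 1), 4 * (C₁ * G i ^ γ) := by
      apply sum_le_sum
      intro i _
      rw [sum_const, nsmul_eq_mul, mul_one, card_range]
      exact hKup i
    refine h3.trans ?_
    rw [sum_range_succ, ← mul_sum, ← mul_sum]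
    have h4 := g_sum γ hγ 0 J (Nat.zero_le _)
    rw [← hq, Nat.sub_zero, zero_add, pow_one] at h4
    have h5 : 4 * (C₁ * ∑ i ∈ range J, G i ^ γ) ≤ 4 * (C₁ * (q / (1 - q) * G J ^ γ)) := by gcongr
    calc 4 * (C₁ * ∑ i ∈ range J, G i ^ γ) + 4 * (C₁ * G J ^ γ) ≤
        4 * (C₁ * (q / (1 - q) * G J ^ γ)) + 4 * (C₁ * G J ^ γ) := by linarith
      _ = _ := by ring
  · intro J m hJ hm
    obtain ⟨J', rfl⟩ : ∃ J', J = J' + 1 := ⟨J - 1, by omega⟩
    have h1 : ∑ v ∈ (range (2 ^ (J' + 1))).filter (· ∈ WW K L r), (1 : ℝ) ≤ ((WW K L r ∩ Set.Iio m).ncard : ℝ) := by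
      rw [sum_const, nsmul_eq_mul, mul_one]
      have h2 : (((range (2 ^ (J' + 1))).filter (· ∈ WW K L r) : Finset ℕ) : Set ℕ) ⊆ (WW K L r ∩ Set.Iio m) := by
        intro v hv
        simp only [coe_filter, mem_range, Set.mem_ofPred_eq] at hv
        exact ⟨hv.2, by rw [Set.mem_Iio]; omega⟩
      have h5 := Set.ncard_le_ncard h2 ((Set.finite_Iio m).inter_of_right _)
      rw [Set.ncard_coe_finset] at h5
      exact_mod_cast h5
    rw [full K L hKL r hr1 (fun _ => 1) (J' + 1), sum_range_succ] at h1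
    have h3 : (0 : ℝ) ≤ ∑ i ∈ range J', ∑ _t ∈ range (K i), (1 : ℝ) :=
      sum_nonneg (fun i _ => sum_nonneg (fun t _ => zero_le_one))
    have h4 : ∑ t ∈ range (K J'), (1 : ℝ) = K J' := by
      rw [sum_const, nsmul_eq_mul, mul_one, card_range]
    rw [h4] at h1
    have h5 := hKlow J' (by omega)
    have h6 := g_up γ hγ hγ1.le J' 1
    norm_num at h6
    have h7 : (0 : ℝ) ≤ G J' ^ γ := Real.rpow_nonneg (G_pos _).le _
    have h8 : H ≤ C₁ / 16 := by
      have h9 : (1 : ℝ) ≤ 2 ^ h * (h + 1) := by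
        have h10 : (1 : ℝ) ≤ 2 ^ h := one_le_pow₀ (by norm_num)
        have h11 : (0 : ℝ) ≤ h := by positivity
        nlinarith
      have h12 : H * 1 ≤ H * (2 ^ h * (h + 1)) := mul_le_mul_of_nonneg_left h9 hH.le
      have h13 : η ^ 2 ≤ 1 := by nlinarith
      have h14 : C₁ * (η ^ 2 / 16) ≤ C₁ * (1 / 16) := by
        apply mul_le_mul_of_nonneg_left _ (by linarith)
        linarith
      linarith
    calc H * G (J' + 1) ^ γ ≤ C₁ / 16 * (4 * G J' ^ γ) := by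
          apply mul_le_mul h8 h6 (Real.rpow_nonneg (G_pos _).le _)
          linarith
      _ ≤ C₁ * G J' ^ γ := by
          have : (0 : ℝ) ≤ C₁ * G J' ^ γ := mul_nonneg (by linarith) h7
          linarith
      _ ≤ (K J' : ℝ) := h5
      _ ≤ _ := by linarith
  · intro d J hJ hd hgood m hm1 hm2 T hT
    have hT2 : T = (range m).filter (· ∈ WW K L r) := by
      ext v
      rw [hT, mem_filter, mem_range]
      tauto
    -- the sum
    obtain ⟨t₁, ht₁, hsum⟩ := upto K L hKL r hr1 J m hm1 hm2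
    have hcard : ∑ i ∈ range J, (K i : ℝ) ≤ T.card := by
      have h1 := hsum (fun _ => (1 : ℝ))
      rw [← hT2] at h1
      simp only [sum_const, nsmul_eq_mul, mul_one, card_range] at h1
      rw [h1]
      have : (0 : ℝ) ≤ t₁ := by positivity
      linarith
    obtain ⟨J', rfl⟩ : ∃ J', J = J' + 1 := ⟨J - 1, by omega⟩
    have hcard2 : (K J' : ℝ) ≤ T.card := by
      refine le_trans ?_ hcard
      exact single_le_sum (f := fun i => (K i : ℝ)) (fun i _ => by positivity) (mem_range.2 (by omega))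
    -- scale estimates
    have hsc : ∀ i, J' + 1 ≤ i + h → i ≤ J' + 1 → ∀ t ≤ K i, |∑ s ∈ range t, e d (pt L r i s)| ≤ η * K i := by
      intro i h1 h2 t ht
      have h3 : l d ≤ η ^ 2 / 16 * (2 ^ a i : ℕ) := by
        obtain ⟨n, hn⟩ : ∃ n, J' + 1 = i + n := ⟨J' + 1 - i, by omega⟩
        have h4 := g_up γ hγ hγ1.le i n
        rw [← hn] at h4
        have h5 : ((2 : ℝ) ^ n * (n + 1)) ≤ 2 ^ h * (h + 1) := by
          have h6 : n ≤ h := by omega
          have h7 : (2 : ℝ) ^ n ≤ 2 ^ h := pow_le_pow_right₀ (by norm_num) h6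
          have h8 : (n : ℝ) ≤ h := by exact_mod_cast h6
          gcongr
        have h6 : G (J' + 1) ^ γ ≤ 2 ^ h * (h + 1) * G i ^ γ :=
          h4.trans (mul_le_mul_of_nonneg_right h5 (Real.rpow_nonneg (G_pos _).le _))
        have h7 : C₁ * G i ^ γ ≤ (K i : ℝ) := hKlow i (by omega)
        have h8 : (0 : ℝ) ≤ G i ^ γ := Real.rpow_nonneg (G_pos _).le _
        calc l d ≤ H * G (J' + 1) ^ γ := hd
          _ ≤ H * (2 ^ h * (h + 1) * G i ^ γ) := by gcongr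
          _ = (H * (2 ^ h * (h + 1))) * G i ^ γ := by ring
          _ ≤ (C₁ * (η ^ 2 / 16)) * G i ^ γ := mul_le_mul_of_nonneg_right hC2 h8
          _ = η ^ 2 / 16 * (C₁ * G i ^ γ) := by ring
          _ ≤ η ^ 2 / 16 * (K i : ℝ) := by gcongr
          _ = _ := by rw [hK]
      exact hr2 i (by omega) d h3 (hgood i h1 h2) t ht
    have hlast := hsc (J' + 1) (by omega) le_rfl t₁ ht₁
    have hfirst : |∑ i ∈ range (J' + 1), ∑ t ∈ range (K i), e d (pt L r i t)| ≤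
        2 * η * T.card := by
      have h1 : ∀ i ∈ range (J' + 1), |∑ t ∈ range (K i), e d (pt L r i t)| ≤
          (if i < J' - h₀ then (K i : ℝ) else 0) + η * K i := by
        intro i hi
        rw [mem_range] at hi
        split_ifs with h2
        · have h3 : |∑ t ∈ range (K i), e d (pt L r i t)| ≤ K i := by
            refine (abs_sum_le_sum_abs _ _).trans ?_
            refine (sum_le_card_nsmul _ _ 1 (fun t _ => he _ _)).trans ?_
            rw [card_range, nsmul_eq_mul, mul_one]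
          have : (0 : ℝ) ≤ η * K i := by positivity
          linarith
        · rw [zero_add]
          by_cases h3 : J' + 1 ≤ i + h
          · exact hsc i h3 (by omega) (K i) le_rfl
          · omega
      refine (abs_sum_le_sum_abs _ _).trans ((sum_le_sum h1).trans ?_)
      rw [sum_add_distrib, ← mul_sum]
      have h2 : ∑ i ∈ range (J' + 1), (if i < J' - h₀ then (K i : ℝ) else 0) ≤ η * T.card := by
        rw [← sum_filter]
        have h3 : (range (J' + 1)).filter (fun i => i < J' - h₀) = range (J' - h₀) := by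
          ext i
          simp only [mem_filter, mem_range]
          omega
        rw [h3]
        have h4 := g_sum γ hγ h₀ J' (by omega)
        rw [← hq] at h4
        have h5 : q ^ (h₀ + 1) / (1 - q) ≤ η / 4 := by
          have h6 : 0 < 1 - q := by linarith
          rw [div_le_iff₀ h6, pow_succ]
          have h7 : (0 : ℝ) ≤ q ^ h₀ := by positivity
          have h8 : q ^ h₀ * q ≤ q ^ h₀ * 1 := mul_le_mul_of_nonneg_left hq1.le h7
          linarith
        have h8 : (0 : ℝ) ≤ G J' ^ γ := Real.rpow_nonneg (G_pos _).le _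
        calc ∑ i ∈ range (J' - h₀), (K i : ℝ) ≤ ∑ i ∈ range (J' - h₀), 4 * (C₁ * G i ^ γ) :=
              sum_le_sum (fun i _ => hKup i)
          _ = 4 * (C₁ * ∑ i ∈ range (J' - h₀), G i ^ γ) := by rw [← mul_sum, ← mul_sum]
          _ ≤ 4 * (C₁ * (η / 4 * G J' ^ γ)) := by
              have := h4.trans (mul_le_mul_of_nonneg_right h5 h8)
              gcongr
          _ = η * (C₁ * G J' ^ γ) := by ring
          _ ≤ η * K J' := by
              apply mul_le_mul_of_nonneg_left (hKlow J' (by omega)) hη.le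
          _ ≤ η * T.card := mul_le_mul_of_nonneg_left hcard2 hη.le
      have h3 := mul_le_mul_of_nonneg_left hcard hη.le
      linarith
    have hKlast : (K (J' + 1) : ℝ) ≤ 16 * T.card := by
      have h1 := g_up γ hγ hγ1.le J' 1
      norm_num at h1
      calc (K (J' + 1) : ℝ) ≤ 4 * (C₁ * G (J' + 1) ^ γ) := hKup _
        _ ≤ 4 * (C₁ * (4 * G J' ^ γ)) := by gcongr
        _ = 16 * (C₁ * G J' ^ γ) := by ring
        _ ≤ 16 * K J' := mul_le_mul_of_nonneg_left (hKlow J' (by omega)) (by norm_num)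
        _ ≤ 16 * T.card := mul_le_mul_of_nonneg_left hcard2 (by norm_num)
    rw [hT2, hsum, ← hT2]
    refine (abs_add_le _ _).trans ?_
    have h9 := mul_le_mul_of_nonneg_left hKlast hη.le
    have h10 : (0 : ℝ) ≤ η * T.card := by positivity
    linarith

end Pool.Agent.H563.SQ
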