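import Pool.Graph.R_pool_sql_team_seeded_3997aac3.Q122.SP.All
import Pool.Agent.H563.SQ.Sample
import Pool.Agent.H563.SQ.Cheb

set_option autoImplicit false

/-!
# Split primes and the indices of the primes
-/

namespace Pool.Agent.H563.SQ

open Finset
open Pool.Agent.Y549.SP (NegFund primesIn splitIn Half)

/-- the prime with the index `v` (the first one has the index `0`) -/
noncomputable def P (v : ℕ) : ℕ := Nat.nth Nat.Prime v

lemma P_prime (v : ℕ) : (P v).Prime := Nat.prime_nth_prime v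

lemma P_inj : Function.Injective P := Nat.nth_injective Nat.infinite_setOfPred_prime

lemma P_surj {p : ℕ} (hp : p.Prime) : ∃ v, P v = p := ⟨Nat.count Nat.Prime p, Nat.nth_count hp⟩

lemma P_le_iff (v y : ℕ) : P v ≤ y ↔ v < Nat.primeCounting y := by
  unfold Nat.primeCounting Nat.primeCounting' P
  rw [← Nat.lt_succ_iff]
  exact (Nat.lt_nth_iff_count_lt Nat.infinite_setOfPred_prime).symm

lemma pi_P (n : ℕ) (hn : 1 ≤ n) : Nat.primeCounting (P (n - 1)) = n := by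
  have h1 : n - 1 < Nat.primeCounting (P (n - 1)) := (P_le_iff _ _).1 le_rfl
  by_contra hcon
  have h2 : n < Nat.primeCounting (P (n - 1)) := by omega
  have h3 := (P_le_iff _ _).2 h2
  have h4 : P (n - 1) < P n := Nat.nth_strictMono Nat.infinite_setOfPred_prime (by omega)
  omega

/-- `p` splits in the field of discriminant `d` -/
def Spl (d : ℤ) (p : ℕ) : Prop := ¬ (p : ℤ) ∣ d ∧ ∃ x : ℤ, (4 * (p : ℤ)) ∣ x ^ 2 - d

open Classical in
/-- `1` if the prime with the index `v` splits, and `-1` if not -/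
noncomputable def ee (d : ℤ) (v : ℕ) : ℝ := if Spl d (P v) then 1 else -1

lemma ee_le (d : ℤ) (v : ℕ) : |ee d v| ≤ 1 := by
  unfold ee
  split_ifs <;> simp

lemma transfer (Q W : Set ℕ) (hQ : ∀ v, P v ∈ Q ↔ v ∈ W) (d : ℤ) (y : ℕ) (T : Finset ℕ)
    (hT : ∀ v, v ∈ T ↔ v ∈ W ∧ v < Nat.primeCounting y) :
    (primesIn Q y).ncard = T.card ∧ 2 * ((splitIn Q d y).ncard : ℝ) - T.card = ∑ v ∈ T, ee d v := by
  classical
  constructor
  · have h1 : primesIn Q y = ((T.image P : Finset ℕ) : Set ℕ) := by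
      ext p
      simp only [primesIn, Set.mem_ofPred_eq, coe_image, Set.mem_image, mem_coe]
      constructor
      · rintro ⟨h2, h3, h4⟩
        obtain ⟨v, rfl⟩ := P_surj h2
        exact ⟨v, (hT v).2 ⟨(hQ v).1 h4, (P_le_iff _ _).1 h3⟩, rfl⟩
      · rintro ⟨v, h2, rfl⟩
        obtain ⟨h3, h4⟩ := (hT v).1 h2
        exact ⟨P_prime v, (P_le_iff _ _).2 h4, (hQ v).2 h3⟩
    rw [h1, Set.ncard_coe_finset, card_image_of_injective _ P_inj]
  · have h1 : splitIn Q d y = (((T.filter (fun v => Spl d (P v))).image P : Finset ℕ) : Set ℕ) := by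
      ext p
      simp only [splitIn, Set.mem_ofPred_eq, coe_image, Set.mem_image, mem_coe, mem_filter]
      constructor
      · rintro ⟨h2, h3, h4, h5⟩
        obtain ⟨v, rfl⟩ := P_surj h2
        exact ⟨v, ⟨(hT v).2 ⟨(hQ v).1 h4, (P_le_iff _ _).1 h3⟩, h5⟩, rfl⟩
      · rintro ⟨v, ⟨h2, h5⟩, rfl⟩
        obtain ⟨h3, h4⟩ := (hT v).1 h2
        exact ⟨P_prime v, (P_le_iff _ _).2 h4, (hQ v).2 h3, h5⟩
    rw [h1, Set.ncard_coe_finset, card_image_of_injective _ P_inj]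
    have h2 : ∀ v ∈ T, ee d v = 2 * (if Spl d (P v) then (1 : ℝ) else 0) - 1 := by
      intro v _
      unfold ee
      split_ifs <;> norm_num
    rw [sum_congr rfl h2, sum_sub_distrib, ← mul_sum, ← sum_filter, sum_const, sum_const, nsmul_eq_mul,
      nsmul_eq_mul, mul_one, mul_one]

/-- the sum over all primes up to the one with the index `n - 1` -/
lemma half_idx (A c η : ℝ) (d : ℤ) (hH : Half Set.univ A c η d) (n : ℕ) (hn : 1 ≤ n)
    (h1 : Real.log |(d : ℝ)| ^ A ≤ (P (n - 1) : ℝ)) (h2 : (P (n - 1) : ℝ) ≤ |(d : ℝ)| ^ c) :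
    |∑ v ∈ range n, ee d v| ≤ η * n := by
  obtain ⟨h3, h4⟩ := transfer Set.univ Set.univ (fun v => by simp) d (P (n - 1)) (range n) (fun v => by
    rw [pi_P n hn]
    simp)
  have h5 := hH (P (n - 1)) h1 h2
  rw [h3, card_range] at h5
  rw [card_range] at h4
  rw [h4] at h5
  exact h5

/-- The sums over the blocks of the scale `i`. -/
lemma block_idx (A c η : ℝ) (hη : 0 < η) (d : ℤ) (hH : Half Set.univ A c η d) (i : ℕ)
    (h1 : ∀ n, 2 ^ i ≤ n → n ≤ 2 ^ (i + 1) → Real.log |(d : ℝ)| ^ A ≤ (P (n - 1) : ℝ))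
    (h2 : ∀ n, 2 ^ i ≤ n → n ≤ 2 ^ (i + 1) → (P (n - 1) : ℝ) ≤ |(d : ℝ)| ^ c) (t : ℕ) (ht : t ≤ 2 ^ i) :
    |∑ v ∈ range t, ee d (2 ^ i + v)| ≤ (12 * η) / 4 * 2 ^ i := by
  have hp : 1 ≤ 2 ^ i := Nat.one_le_two_pow
  have hn : 2 ^ i + t ≤ 2 ^ (i + 1) := by rw [pow_succ]; omega
  have e1 : ∑ v ∈ range t, ee d (2 ^ i + v) =
      ∑ v ∈ range (2 ^ i + t), ee d v - ∑ v ∈ range (2 ^ i), ee d v := by
    rw [sum_range_add]
    ring
  have a1 := half_idx A c η d hH (2 ^ i + t) (by omega) (h1 _ (by omega) hn) (h2 _ (by omega) hn)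
  have a2 := half_idx A c η d hH (2 ^ i) hp (h1 _ le_rfl (by omega)) (h2 _ le_rfl (by omega))
  rw [e1]
  have h3 : ((2 ^ i + t : ℕ) : ℝ) ≤ 2 * 2 ^ i := by
    have : 2 ^ i + t ≤ 2 * 2 ^ i := by omega
    exact_mod_cast this
  have h4 := mul_le_mul_of_nonneg_left h3 hη.le
  push_cast at a2
  have h5 := abs_sub (∑ v ∈ range (2 ^ i + t), ee d v) (∑ v ∈ range (2 ^ i), ee d v)
  have h6 : |∑ v ∈ range (2 ^ i + t), ee d v - ∑ v ∈ range (2 ^ i), ee d v| ≤
      |∑ v ∈ range (2 ^ i + t), ee d v| + |∑ v ∈ range (2 ^ i), ee d v| := by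
    exact abs_sub _ _
  linarith

lemma fin_log (B : ℝ) (hB : 0 ≤ B) : ∃ I : Finset ℤ, (∀ d : ℤ, Real.log |(d : ℝ)| ≤ B → d ∈ I) ∧
    (I.card : ℝ) ≤ 3 * Real.exp B := by
  have hE : 1 ≤ Real.exp B := Real.one_le_exp hB
  have hF : 0 ≤ ⌊Real.exp B⌋ := Int.floor_nonneg.2 (by linarith)
  refine ⟨Finset.Icc (-⌊Real.exp B⌋) ⌊Real.exp B⌋, ?_, ?_⟩
  · intro d hd
    rw [Finset.mem_Icc, ← abs_le, Int.le_floor]
    push_cast
    by_cases h0 : d = 0
    · rw [h0]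
      simp only [Int.cast_zero, abs_zero]
      linarith
    · have h1 : (0 : ℝ) < |(d : ℝ)| := abs_pos.2 (by exact_mod_cast h0)
      exact (Real.log_le_iff_le_exp h1).1 hd
  · rw [Int.card_Icc]
    have h1 : ((⌊Real.exp B⌋ + 1 - -⌊Real.exp B⌋).toNat : ℝ) = 2 * (⌊Real.exp B⌋ : ℝ) + 1 := by
      have h2 : (((⌊Real.exp B⌋ + 1 - -⌊Real.exp B⌋).toNat : ℤ) : ℝ) = ((⌊Real.exp B⌋ + 1 - -⌊Real.exp B⌋ : ℤ) : ℝ) := by
        rw [Int.toNat_of_nonneg (by omega)]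
      rw [Int.cast_natCast] at h2
      rw [h2]
      push_cast
      ring
    rw [h1]
    have h3 := Int.floor_le (Real.exp B)
    linarith

end Pool.Agent.H563.SQ
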