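import Pool.Agent.H563.SQ.Idx

set_option autoImplicit false

/-!
# One thin set of primes for all imaginary quadratic fields
-/

namespace Pool.Agent.H563.SQ

open Finset
open Pool.Agent.Y549.SP (NegFund primesIn splitIn Half)

lemma G_mono {i j : ℕ} (h : i ≤ j) : G i ≤ G j := by
  obtain ⟨m, rfl⟩ := Nat.exists_eq_add_of_le h
  have h1 := G_pow i m
  have h2 : (1 : ℝ) ≤ 2 ^ m := one_le_pow₀ (by norm_num)
  have h3 := G_pos i
  nlinarith

lemma rpow_scale (a x γ : ℝ) (ha : 1 ≤ a) (hx : 0 ≤ x) (hγ1 : γ ≤ 1) : (a * x) ^ γ ≤ a * x ^ γ := by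
  rw [Real.mul_rpow (by linarith) hx]
  apply mul_le_mul_of_nonneg_right _ (Real.rpow_nonneg hx _)
  calc a ^ γ ≤ a ^ (1 : ℝ) := Real.rpow_le_rpow_of_exponent_le ha hγ1
    _ = a := Real.rpow_one a

/-- the scale of a number -/
lemma scale_of (y : ℕ) (hy : 2 ≤ y) : ∃ J : ℕ, 2 ^ J ≤ Nat.primeCounting y ∧ Nat.primeCounting y ≤ 2 ^ (J + 1) ∧
    G J ≤ 15 * y ∧ (y : ℝ) ≤ 45 * G J := by
  have h0 : 0 < Nat.primeCounting y := by
    rw [← P_le_iff 0 y]
    have h1 : P 0 = 2 := Nat.nth_prime_zero_eq_two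
    omega
  refine ⟨Nat.log 2 (Nat.primeCounting y), Nat.pow_log_le_self 2 h0.ne', ?_, ?_, ?_⟩
  · exact (Nat.lt_pow_succ_log_self (by norm_num) _).le
  · exact chebA y _ hy (Nat.pow_log_le_self 2 h0.ne')
  · exact chebB y _ (Nat.lt_pow_succ_log_self (by norm_num) _).le

theorem main (A η ε : ℝ) (hA : 1 < A) (hη : 0 < η) (hε : 0 < ε) :
    ∃ Q : Set ℕ, ∃ C c K : ℝ, (∀ p ∈ Q, p.Prime) ∧ 0 < c ∧
      (∀ y : ℕ, 1 ≤ y → ((primesIn Q y).ncard : ℝ) ≤ C * (y : ℝ) ^ (1 / A)) ∧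
      (∃ y₀ : ℕ, ∀ y : ℕ, y₀ ≤ y → (y : ℝ) ^ (1 / A) ≤ (primesIn Q y).ncard) ∧
      ∀ X : ℕ, 1 ≤ X → ({d : ℤ | NegFund d ∧ |d| ≤ X ∧ ¬ Half Q A c η d}.ncard : ℝ) ≤
        K * (X : ℝ) ^ (1 / A + ε) := by
  classical
  have hA0 : 0 < A := by linarith
  obtain ⟨γ, hγe⟩ : ∃ γ : ℝ, γ = 1 / A := ⟨_, rfl⟩
  have hγ : 0 < γ := by rw [hγe]; positivity
  have hγ1 : γ < 1 := by rw [hγe, div_lt_one hA0]; exact hA
  obtain ⟨η₂, hη₂⟩ : ∃ η₂ : ℝ, η₂ = min η 1 / 20 := ⟨_, rfl⟩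
  have hmin : 0 < min η 1 := lt_min hη one_pos
  have hη2 : 0 < η₂ := by rw [hη₂]; positivity
  have hη21 : η₂ ≤ 1 := by
    rw [hη₂]
    have := min_le_right η 1
    linarith
  have hη2η : 20 * η₂ ≤ η := by
    rw [hη₂]
    have := min_le_left η 1
    linarith
  obtain ⟨h, hh⟩ := sample (fun d : ℤ => Real.log |(d : ℝ)|) fin_log ee ee_le γ η₂ hγ hγ1 hη2 hη21
  obtain ⟨W, C, J₀, hC, hhJ, hup, hlow, hmain⟩ := hh 45 (by norm_num)
  obtain ⟨δ, hδe⟩ : ∃ δ : ℝ, δ = min (ε / 2) ((1 - γ) / 2) := ⟨_, rfl⟩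
  have hδ : 0 < δ := by
    rw [hδe]
    exact lt_min (by positivity) (by linarith)
  have hδ1 : δ ≤ ε / 2 := by rw [hδe]; exact min_le_left _ _
  have hδ2 : δ ≤ (1 - γ) / 2 := by rw [hδe]; exact min_le_right _ _
  obtain ⟨A₁, hA₁⟩ : ∃ A₁ : ℝ, A₁ = 1 / (γ + δ) := ⟨_, rfl⟩
  have hA1 : 1 < A₁ := by
    rw [hA₁, lt_div_iff₀ (by positivity)]
    linarith
  have hA1A : A₁ < A := by
    rw [hA₁, div_lt_iff₀ (by positivity), hγe]
    have : A * (1 / A + δ) = 1 + A * δ := by field_simp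
    rw [this]
    have : 0 < A * δ := by positivity
    linarith
  obtain ⟨c, K₁, hc, hK1, hex⟩ := Pool.Agent.Y549.SP.Fin2.part1 Pool.Agent.Q122.SP.cnt2 A₁ 1 (η₂ / 12) (ε / 2)
    Set.univ one_pos le_rfl (by linarith) (by positivity) (by positivity) Pool.Agent.Y549.SP.Fin2.thick_univ
  -- the set
  have hQ : ∀ v, P v ∈ {p | ∃ v ∈ W, p = P v} ↔ v ∈ W := by
    intro v
    constructor
    · rintro ⟨w, hw, hwv⟩
      rw [P_inj hwv]
      exact hw
    · intro hv
      exact ⟨v, hv, rfl⟩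
  obtain ⟨Q, hQe⟩ : ∃ Q : Set ℕ, Q = {p | ∃ v ∈ W, p = P v} := ⟨_, rfl⟩
  rw [← hQe] at hQ
  have hcnt : ∀ y : ℕ, (primesIn Q y).ncard = (W ∩ Set.Iio (Nat.primeCounting y)).ncard := by
    intro y
    obtain ⟨h1, _⟩ := transfer Q W hQ 1 y ((range (Nat.primeCounting y)).filter (· ∈ W)) (fun v => by
      rw [mem_filter, mem_range]
      tauto)
    rw [h1, ← Set.ncard_coe_finset]
    congr 1
    ext v
    simp only [coe_filter, mem_range, Set.mem_ofPred_eq, Set.mem_inter_iff, Set.mem_Iio]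
    tauto
  -- large discriminants
  obtain ⟨M, hM⟩ : ∃ M : ℝ, M = 675 * (2 ^ h * (h + 1)) := ⟨_, rfl⟩
  have hM0 : 0 < M := by rw [hM]; positivity
  have ev1 := (tendsto_rpow_atTop hA0).eventually_gt_atTop (45 * G J₀)
  have ev2 := (tendsto_rpow_atTop (show 0 < A - A₁ by linarith)).eventually_ge_atTop M
  have ev3 := (Real.tendsto_exp_atTop.comp (Filter.tendsto_id.const_mul_atTop
    (show 0 < c / 2 by positivity))).eventually_ge_atTop 675
  obtain ⟨x₀, hx₀⟩ := Filter.eventually_atTop.1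
    (ev1.and (ev2.and (ev3.and (Filter.eventually_ge_atTop (1 : ℝ)))))
  have key : ∀ d : ℤ, x₀ ≤ Real.log |(d : ℝ)| → Half Set.univ A₁ c (η₂ / 12) d → Half Q A (c / 2) η d := by
    intro d hd hH
    obtain ⟨c1, c2, c3, c4⟩ := hx₀ _ hd
    obtain ⟨x, hx⟩ : ∃ x : ℝ, x = Real.log |(d : ℝ)| := ⟨_, rfl⟩
    simp only [Function.comp_def, id] at c3
    rw [← hx] at c1 c2 c3 c4
    have hd0 : (0 : ℝ) < |(d : ℝ)| := by
      by_contra hcon
      have : |(d : ℝ)| = 0 := le_antisymm (not_lt.1 hcon) (abs_nonneg _)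
      rw [this, Real.log_zero] at hx
      linarith
    have hx0 : 0 < x := by linarith
    intro y hy1 hy2
    rw [← hx] at hy1
    have hG0 := G_one J₀
    have hy45 : (45 : ℝ) < y := by linarith
    have hy45' : 45 < y := by exact_mod_cast hy45
    obtain ⟨J, hJ1, hJ2, hJ3, hJ4⟩ := scale_of y (by omega)
    have hJJ : J₀ ≤ J := by
      by_contra hcon
      push Not at hcon
      have := G_mono hcon.le
      linarith
    obtain ⟨h1, h2⟩ := transfer Q W hQ d y ((range (Nat.primeCounting y)).filter (· ∈ W)) (fun v => by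
      rw [mem_filter, mem_range]
      tauto)
    rw [h1, h2]
    refine (hmain d J hJJ ?_ ?_ (Nat.primeCounting y) hJ1 hJ2 _ (fun v => by
      rw [mem_filter, mem_range]
      tauto)).trans ?_
    · -- the size of `log |d|`
      show Real.log |(d : ℝ)| ≤ 45 * G J ^ γ
      rw [← hx]
      calc x = (x ^ A) ^ γ := by
            rw [← Real.rpow_mul hx0.le, hγe, mul_one_div_cancel hA0.ne', Real.rpow_one]
        _ ≤ (45 * G J) ^ γ := by
            apply Real.rpow_le_rpow (Real.rpow_nonneg hx0.le _) _ hγ.le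
            linarith
        _ ≤ 45 * G J ^ γ := rpow_scale 45 (G J) γ (by norm_num) (G_pos _).le hγ1.le
    · intro i hi1 hi2 t ht
      have hblk := block_idx A₁ c (η₂ / 12) (by positivity) d hH i ?_ ?_ t ht
      · refine hblk.trans (le_of_eq ?_)
        ring
      · intro n hn1 hn2
        rw [← hx]
        have hp : 1 ≤ 2 ^ i := Nat.one_le_two_pow
        have hpn : Nat.primeCounting (P (n - 1)) = n := pi_P n (by omega)
        have hP2 : 2 ≤ P (n - 1) := (P_prime _).two_le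
        have h3 := chebA (P (n - 1)) i hP2 (by rw [hpn]; exact hn1)
        obtain ⟨k, hk⟩ : ∃ k, J = i + k := ⟨J - i, by omega⟩
        have h4 := G_up i k
        rw [← hk] at h4
        have h5 : ((2 : ℝ) ^ k * (k + 1)) ≤ 2 ^ h * (h + 1) := by
          have h6 : k ≤ h := by omega
          have h7 : (2 : ℝ) ^ k ≤ 2 ^ h := pow_le_pow_right₀ (by norm_num) h6
          have h8 : (k : ℝ) ≤ h := by exact_mod_cast h6
          gcongr
        have h6 : x ^ A ≤ M * P (n - 1) := by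
          calc x ^ A ≤ y := hy1
            _ ≤ 45 * G J := hJ4
            _ ≤ 45 * (2 ^ k * (k + 1) * G i) := by gcongr
            _ ≤ 45 * ((2 ^ h * (h + 1)) * G i) := by
                have := mul_le_mul_of_nonneg_right h5 (G_pos i).le
                linarith
            _ ≤ 45 * ((2 ^ h * (h + 1)) * (15 * (P (n - 1) : ℝ))) := by gcongr
            _ = M * P (n - 1) := by rw [hM]; ring
        have h7 : M * x ^ A₁ ≤ x ^ A := by
          calc M * x ^ A₁ ≤ x ^ (A - A₁) * x ^ A₁ := by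
                apply mul_le_mul_of_nonneg_right c2 (Real.rpow_nonneg hx0.le _)
            _ = x ^ A := by
                rw [← Real.rpow_add hx0]
                congr 1
                ring
        exact le_of_mul_le_mul_left (h7.trans h6) hM0
      · intro n hn1 hn2
        have hp : 1 ≤ 2 ^ i := Nat.one_le_two_pow
        have hpn : Nat.primeCounting (P (n - 1)) = n := pi_P n (by omega)
        have h3 := chebB (P (n - 1)) i (by rw [hpn]; exact hn2)
        have h4 := G_mono hi2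
        have hdx : |(d : ℝ)| = Real.exp x := by rw [hx, Real.exp_log hd0]
        have h5 : (675 : ℝ) ≤ |(d : ℝ)| ^ (c / 2) := by
          rw [hdx, ← Real.exp_mul, mul_comm]
          exact c3
        have h6 : (0 : ℝ) ≤ |(d : ℝ)| ^ (c / 2) := by positivity
        calc (P (n - 1) : ℝ) ≤ 45 * G i := h3
          _ ≤ 675 * y := by linarith
          _ ≤ |(d : ℝ)| ^ (c / 2) * |(d : ℝ)| ^ (c / 2) := mul_le_mul h5 hy2 (by positivity) h6
          _ = |(d : ℝ)| ^ c := by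
              rw [← Real.rpow_add hd0]
              congr 1
              ring
    · exact mul_le_mul_of_nonneg_right hη2η (by positivity)
  obtain ⟨I, hI1, hI2⟩ := fin_log (max x₀ 0) (le_max_right _ _)
  refine ⟨Q, 15 * C, c / 2, K₁ + 3 * Real.exp (max x₀ 0), ?_, by positivity, ?_, ?_, ?_⟩
  · intro p hp
    rw [hQe] at hp
    obtain ⟨v, _, rfl⟩ := hp
    exact P_prime v
  · intro y hy
    rw [hcnt y, ← hγe]
    by_cases hy2 : 2 ≤ y
    · obtain ⟨J, hJ1, hJ2, hJ3, hJ4⟩ := scale_of y hy2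
      calc ((W ∩ Set.Iio (Nat.primeCounting y)).ncard : ℝ) ≤ C * G J ^ γ := hup J _ hJ2
        _ ≤ C * (15 * (y : ℝ) ^ γ) := by
            apply mul_le_mul_of_nonneg_left _ hC.le
            calc G J ^ γ ≤ (15 * (y : ℝ)) ^ γ := Real.rpow_le_rpow (G_pos _).le hJ3 hγ.le
              _ ≤ 15 * (y : ℝ) ^ γ := rpow_scale 15 y γ (by norm_num) (by positivity) hγ1.le
        _ = 15 * C * (y : ℝ) ^ γ := by ring
    · have hy1 : y = 1 := by omega
      have h0 : Nat.primeCounting y = 0 := by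
        by_contra hcon
        have h1 : 0 < Nat.primeCounting y := by omega
        rw [← P_le_iff 0 y] at h1
        have h2 := (P_prime 0).two_le
        omega
      rw [h0]
      have h1 : W ∩ Set.Iio 0 = ∅ := by
        ext v
        simp
      rw [h1, Set.ncard_empty]
      push_cast
      positivity
  · refine ⟨⌈45 * G J₀⌉₊ + 2, ?_⟩
    intro y hy
    rw [hcnt y, ← hγe]
    obtain ⟨J, hJ1, hJ2, hJ3, hJ4⟩ := scale_of y (by omega)
    have h1 : 45 * G J₀ < y := by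
      have h2 := Nat.le_ceil (45 * G J₀)
      have h3 : ((⌈45 * G J₀⌉₊ + 2 : ℕ) : ℝ) ≤ y := by exact_mod_cast hy
      push_cast at h3
      linarith
    have hJJ : J₀ ≤ J := by
      by_contra hcon
      push Not at hcon
      have := G_mono hcon.le
      linarith
    calc (y : ℝ) ^ γ ≤ (45 * G J) ^ γ := Real.rpow_le_rpow (by positivity) hJ4 hγ.le
      _ ≤ 45 * G J ^ γ := rpow_scale 45 (G J) γ (by norm_num) (G_pos _).le hγ1.le
      _ ≤ _ := hlow J _ hJJ hJ1
  · intro X hX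
    have hX1 : (1 : ℝ) ≤ X := by exact_mod_cast hX
    have hfin : {d : ℤ | NegFund d ∧ |d| ≤ X ∧ ¬ Half Set.univ A₁ c (η₂ / 12) d}.Finite := by
      apply (Set.finite_Icc (-(X : ℤ)) X).subset
      rintro d ⟨_, h2, _⟩
      exact abs_le.1 h2
    have hsub : {d : ℤ | NegFund d ∧ |d| ≤ X ∧ ¬ Half Q A (c / 2) η d} ⊆
        {d : ℤ | NegFund d ∧ |d| ≤ X ∧ ¬ Half Set.univ A₁ c (η₂ / 12) d} ∪ (I : Set ℤ) := by
      rintro d ⟨h1, h2, h3⟩
      by_cases h4 : x₀ ≤ Real.log |(d : ℝ)|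
      · left
        exact ⟨h1, h2, fun h5 => h3 (key d h4 h5)⟩
      · right
        push Not at h4
        exact hI1 d (h4.le.trans (le_max_left _ _))
    have h1 := Set.ncard_le_ncard hsub (hfin.union I.finite_toSet)
    have h2 := Set.ncard_union_le {d : ℤ | NegFund d ∧ |d| ≤ X ∧ ¬ Half Set.univ A₁ c (η₂ / 12) d} (I : Set ℤ)
    rw [Set.ncard_coe_finset] at h2
    have h3 : ({d : ℤ | NegFund d ∧ |d| ≤ X ∧ ¬ Half Q A (c / 2) η d}.ncard : ℝ) ≤
        ({d : ℤ | NegFund d ∧ |d| ≤ X ∧ ¬ Half Set.univ A₁ c (η₂ / 12) d}.ncard : ℝ) + I.card := by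
      exact_mod_cast h1.trans h2
    have h4 := hex X hX
    have h5 : (X : ℝ) ^ (1 - 1 + 1 / A₁ + ε / 2) ≤ (X : ℝ) ^ (1 / A + ε) := by
      apply Real.rpow_le_rpow_of_exponent_le hX1
      have h6 : 1 / A₁ = γ + δ := by rw [hA₁, one_div_one_div]
      rw [h6, ← hγe]
      linarith
    have h6 : (1 : ℝ) ≤ (X : ℝ) ^ (1 / A + ε) := Real.one_le_rpow hX1 (by positivity)
    have h7 := mul_le_mul_of_nonneg_left h5 hK1.le
    have h8 : (I.card : ℝ) ≤ 3 * Real.exp (max x₀ 0) * (X : ℝ) ^ (1 / A + ε) := by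
      refine hI2.trans ?_
      have : (0 : ℝ) ≤ 3 * Real.exp (max x₀ 0) := by positivity
      nlinarith
    calc _ ≤ _ := h3
      _ ≤ K₁ * (X : ℝ) ^ (1 / A + ε) + 3 * Real.exp (max x₀ 0) * (X : ℝ) ^ (1 / A + ε) := by linarith
      _ = _ := by ring

end Pool.Agent.H563.SQ
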