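import Pool.Agent.H563.T4.Choice

set_option autoImplicit false

/-!
# One element in each of `k` blocks of length `L` such that all partial sums of many functions are small
-/

namespace Pool.Agent.H563.SQ

open Finset

theorem scale {ι : Type*} (I : Finset ι) (e : ι → ℕ → ℝ) (he : ∀ d v, |e d v| ≤ 1) (k L : ℕ) (hL : 0 < L)
    (η : ℝ) (hη : 0 < η) (hη1 : η ≤ 1)
    (hs : ∀ d ∈ I, ∀ t ≤ k, |∑ v ∈ range (t * L), e d v| ≤ η / 4 * (k * L))
    (hI : 2 * ((I.card : ℝ) * (k + 1)) * Real.exp (-(η ^ 2 / 8 * k)) < 1) :
    ∃ r : ℕ → ℕ, (∀ t, r t < L) ∧ ∀ d ∈ I, ∀ t ≤ k, |∑ s ∈ range t, e d (s * L + r s)| ≤ η * k := by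
  classical
  have hLr : (0 : ℝ) < L := by exact_mod_cast hL
  -- the conditions
  set M : Finset (ι × ℕ × Bool) := I ×ˢ (range (k + 1) ×ˢ (univ : Finset Bool)) with hM
  set sg : Bool → ℝ := fun b => if b then 1 else -1 with hsg
  have hsg1 : ∀ b, |sg b| = 1 := by
    intro b
    cases b <;> simp [hsg]
  set e' : ι × ℕ × Bool → ℕ → ℝ := fun z v => if v < z.2.1 * L then sg z.2.2 * e z.1 v else 0 with he'
  have hb : ∀ z v, |e' z v| ≤ 1 := by
    intro z v
    simp only [he']
    split_ifs
    · rw [abs_mul, hsg1, one_mul]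
      exact he _ _
    · simp
  have hsum : ∀ z ∈ M, ∑ v ∈ range (k * L), e' z v ≤ η / 4 * (k * L) := by
    intro z hz
    rw [hM, mem_product, mem_product, mem_range] at hz
    obtain ⟨h1, h2, _⟩ := hz
    have h3 : z.2.1 * L ≤ k * L := Nat.mul_le_mul_right _ (by omega)
    have h4 : ∑ v ∈ range (k * L), e' z v = sg z.2.2 * ∑ v ∈ range (z.2.1 * L), e z.1 v := by
      simp only [he']
      rw [← sum_filter, mul_sum]
      apply sum_congr _ (fun _ _ => rfl)
      ext v
      simp only [mem_filter, mem_range]
      omega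
    rw [h4]
    refine (le_abs_self _).trans ?_
    rw [abs_mul, hsg1, one_mul]
    exact hs _ h1 _ (by omega)
  obtain ⟨lam, hlam⟩ : ∃ lam : ℝ, lam = η / 4 := ⟨_, rfl⟩
  have hlam0 : 0 < lam := by rw [hlam]; positivity
  have hlam1 : lam ≤ 1 := by linarith
  obtain ⟨r, hr1, hr2⟩ := T4.choice M L hL (fun z v => lam * e' z v) k (fun _ => lam * (η * k)) (by
    refine lt_of_le_of_lt ?_ hI
    have hterm : ∀ z ∈ M, Real.exp (-(lam * (η * k))) *
        ∏ t ∈ range k, ((∑ u ∈ range L, Real.exp (lam * e' z (t * L + u))) / L) ≤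
        Real.exp (-(η ^ 2 / 8 * k)) := by
      intro z hz
      have h1 : ∏ t ∈ range k, ((∑ u ∈ range L, Real.exp (lam * e' z (t * L + u))) / L) ≤
          ∏ t ∈ range k, Real.exp (lam * ((∑ u ∈ range L, e' z (t * L + u)) / L) + lam ^ 2) := by
        apply prod_le_prod
        · intro t _
          positivity
        · intro t _
          have h2 : (∑ u ∈ range L, Real.exp (lam * e' z (t * L + u))) ≤
              ∑ u ∈ range L, (1 + lam * e' z (t * L + u) + lam ^ 2) := by
            apply sum_le_sum
            intro u _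
            have h3 : |lam * e' z (t * L + u)| ≤ 1 := by
              rw [abs_mul, abs_of_pos hlam0]
              calc lam * |e' z (t * L + u)| ≤ 1 * 1 :=
                    mul_le_mul hlam1 (hb _ _) (abs_nonneg _) zero_le_one
                _ = 1 := one_mul 1
            have h4 := (abs_le.1 (Real.abs_exp_sub_one_sub_id_le h3)).2
            have h5 : (lam * e' z (t * L + u)) ^ 2 ≤ lam ^ 2 := by
              rw [mul_pow]
              have : (e' z (t * L + u)) ^ 2 ≤ 1 := by
                rw [← sq_abs]
                exact pow_le_one₀ (abs_nonneg _) (hb _ _)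
              nlinarith [sq_nonneg lam]
            linarith
          have h5 : (∑ u ∈ range L, (1 + lam * e' z (t * L + u) + lam ^ 2)) / L =
              (lam * ((∑ u ∈ range L, e' z (t * L + u)) / L) + lam ^ 2) + 1 := by
            rw [sum_add_distrib, sum_add_distrib, ← mul_sum, sum_const, sum_const, card_range, nsmul_eq_mul,
              nsmul_eq_mul]
            field_simp
            ring
          calc (∑ u ∈ range L, Real.exp (lam * e' z (t * L + u))) / L ≤
              (∑ u ∈ range L, (1 + lam * e' z (t * L + u) + lam ^ 2)) / L := by gcongr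
            _ = (lam * ((∑ u ∈ range L, e' z (t * L + u)) / L) + lam ^ 2) + 1 := h5
            _ ≤ _ := Real.add_one_le_exp _
      rw [← Real.exp_sum] at h1
      have h6 : ∑ t ∈ range k, (lam * ((∑ u ∈ range L, e' z (t * L + u)) / L) + lam ^ 2) =
          lam * ((∑ v ∈ range (k * L), e' z v) / L) + k * lam ^ 2 := by
        rw [T4.sum_blocks, sum_add_distrib, ← mul_sum, ← sum_div, sum_const, card_range, nsmul_eq_mul]
      rw [h6] at h1
      have h7 : (∑ v ∈ range (k * L), e' z v) / L ≤ η / 4 * k := by
        rw [div_le_iff₀ hLr]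
        have := hsum z hz
        linarith
      calc Real.exp (-(lam * (η * k))) *
            ∏ t ∈ range k, ((∑ u ∈ range L, Real.exp (lam * e' z (t * L + u))) / L) ≤
            Real.exp (-(lam * (η * k))) *
              Real.exp (lam * ((∑ v ∈ range (k * L), e' z v) / L) + k * lam ^ 2) := by gcongr
        _ = Real.exp (-(lam * (η * k)) + (lam * ((∑ v ∈ range (k * L), e' z v) / L) + k * lam ^ 2)) :=
            (Real.exp_add _ _).symm
        _ ≤ Real.exp (-(η ^ 2 / 8 * k)) := by
            apply Real.exp_le_exp.2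
            have h8 := mul_le_mul_of_nonneg_left h7 hlam0.le
            have e1 : lam * (η * k) = η ^ 2 / 4 * k := by rw [hlam]; ring
            have e2 : lam * (η / 4 * k) = η ^ 2 / 16 * k := by rw [hlam]; ring
            have e3 : (k : ℝ) * lam ^ 2 = η ^ 2 / 16 * k := by rw [hlam]; ring
            rw [e1, e3]
            rw [e2] at h8
            linarith
    refine (sum_le_card_nsmul _ _ _ hterm).trans ?_
    rw [nsmul_eq_mul]
    apply le_of_eq
    rw [hM, card_product, card_product, card_range]
    simp only [card_univ, Fintype.card_bool]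
    push_cast
    ring)
  refine ⟨r, hr1, ?_⟩
  intro d hd t ht
  have key : ∀ b : Bool, sg b * ∑ s ∈ range t, e d (s * L + r s) ≤ η * k := by
    intro b
    have h1 := hr2 (d, t, b) (by
      rw [hM, mem_product, mem_product]
      exact ⟨hd, mem_range.2 (by simp only; omega), mem_univ _⟩)
    rw [← mul_sum] at h1
    have h2 : ∑ s ∈ range k, e' (d, t, b) (s * L + r s) = sg b * ∑ s ∈ range t, e d (s * L + r s) := by
      simp only [he']
      rw [← sum_filter, mul_sum]
      apply sum_congr _ (fun _ _ => rfl)
      ext s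
      simp only [mem_filter, mem_range]
      constructor
      · rintro ⟨_, h3⟩
        by_contra hcon
        have h4 : t * L ≤ s * L := Nat.mul_le_mul_right _ (by omega)
        omega
      · intro h3
        refine ⟨by omega, ?_⟩
        have h4 : (s + 1) * L ≤ t * L := Nat.mul_le_mul_right _ (by omega)
        have h5 := hr1 s
        rw [Nat.succ_mul] at h4
        omega
    rw [h2] at h1
    exact (lt_of_mul_lt_mul_left h1 hlam0.le).le
  rw [abs_le]
  have k1 := key true
  have k2 := key false
  simp only [hsg, if_true, Bool.false_eq_true, if_false] at k1 k2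
  constructor <;> linarith

end Pool.Agent.H563.SQ
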